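import Pool.Agent.H7.OPP.Stmts

/-!
# OPP, module DIA: the diagonal operators and the matrix coefficients
-/

set_option autoImplicit false

namespace Pool.OPP

open scoped Topology ComplexConjugate

/-- diagonal operators exist -/
theorem DIA_diag (φ : JI → ℂ) (C : ℝ) (hφ : ∀ v, ‖φ v‖ ≤ C) :
    ∃ W : BH, ∀ (ξ : HH) (v : JI), (W ξ : JI → ℂ) v = φ v * ξ v := by
  have hC : 0 ≤ C := (norm_nonneg _).trans (hφ (istar, ∅))
  have h2 : (2 : ENNReal).toReal = 2 := by simp
  have hpos : 0 < (2 : ENNReal).toReal := by rw [h2]; norm_num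
  have hsum : ∀ (ξ : HH) (F : Finset JI),
      ∑ v ∈ F, ‖φ v * (ξ : JI → ℂ) v‖ ^ (2 : ENNReal).toReal ≤
        (C * ‖ξ‖) ^ (2 : ENNReal).toReal := by
    intro ξ F
    rw [Real.mul_rpow hC (norm_nonneg _)]
    have h1 := lp.sum_rpow_le_norm_rpow hpos ξ F
    calc ∑ v ∈ F, ‖φ v * (ξ : JI → ℂ) v‖ ^ (2 : ENNReal).toReal
        ≤ ∑ v ∈ F, C ^ (2 : ENNReal).toReal * ‖(ξ : JI → ℂ) v‖ ^ (2 : ENNReal).toReal := by
          refine Finset.sum_le_sum fun v _ => ?_
          rw [norm_mul, Real.mul_rpow (norm_nonneg _) (norm_nonneg _)]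
          refine mul_le_mul_of_nonneg_right ?_ (Real.rpow_nonneg (norm_nonneg _) _)
          exact Real.rpow_le_rpow (norm_nonneg _) (hφ _) hpos.le
      _ = C ^ (2 : ENNReal).toReal * ∑ v ∈ F, ‖(ξ : JI → ℂ) v‖ ^ (2 : ENNReal).toReal := by
          rw [Finset.mul_sum]
      _ ≤ _ := mul_le_mul_of_nonneg_left h1 (Real.rpow_nonneg hC _)
  let L : HH →ₗ[ℂ] HH :=
    { toFun := fun ξ => ⟨fun v => φ v * (ξ : JI → ℂ) v, memℓp_gen' (hsum ξ)⟩
      map_add' := fun ξ η => by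
        apply lp.ext
        funext v
        show φ v * (ξ + η : HH) v = φ v * ξ v + φ v * η v
        rw [lp.coeFn_add, Pi.add_apply, mul_add]
      map_smul' := fun c ξ => by
        apply lp.ext
        funext v
        show φ v * (c • ξ : HH) v = c • (φ v * ξ v)
        rw [lp.coeFn_smul, Pi.smul_apply, smul_eq_mul, smul_eq_mul]
        ring }
  have hL : ∀ ξ, ‖L ξ‖ ≤ C * ‖ξ‖ := fun ξ =>
    lp.norm_le_of_forall_sum_le hpos (mul_nonneg hC (norm_nonneg _)) (hsum ξ)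
  exact ⟨L.mkContinuous C hL, fun ξ v => rfl⟩

theorem DIA_bv (s t : JI) : (bv t : JI → ℂ) s = if s = t then 1 else 0 := by
  unfold bv
  rw [lp.coeFn_single]
  by_cases h : s = t
  · subst h; simp
  · rw [if_neg h, Pi.single_eq_of_ne h]

theorem DIA_norm_bv (t : JI) : ‖bv t‖ = 1 := by
  unfold bv
  rw [lp.norm_single (by norm_num)]
  simp

theorem DIA_inner (s : JI) (ξ : HH) : inner ℂ (bv s) ξ = (ξ : JI → ℂ) s := by
  unfold bv
  rw [lp.inner_single_left]
  simp

theorem DIA_star (f : BH) (s t : JI) : mc (star f) s t = conj (mc f t s) := by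
  unfold mc
  rw [← DIA_inner, ← DIA_inner, ContinuousLinearMap.star_eq_adjoint,
    ContinuousLinearMap.adjoint_inner_right, inner_conj_symm]

theorem DIA_star_apply (f : BH) (ξ : HH) (s : JI) :
    (star f ξ : JI → ℂ) s = inner ℂ (f (bv s)) ξ := by
  rw [← DIA_inner, ContinuousLinearMap.star_eq_adjoint,
    ContinuousLinearMap.adjoint_inner_right]

/-- a diagonal operator on a basis vector -/
theorem DIA_dbv {W : BH} {φ : JI → ℂ} (hW : ∀ (ξ : HH) (v : JI), (W ξ : JI → ℂ) v = φ v * ξ v)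
    (s : JI) : W (bv s) = φ s • bv s := by
  apply lp.ext
  funext v
  rw [hW, lp.coeFn_smul, Pi.smul_apply, smul_eq_mul, DIA_bv]
  split_ifs with h
  · rw [h]
  · simp

/-- the adjoint of a diagonal operator -/
theorem DIA_dstar {W : BH} {φ : JI → ℂ} (hW : ∀ (ξ : HH) (v : JI), (W ξ : JI → ℂ) v = φ v * ξ v)
    (ξ : HH) (v : JI) : (star W ξ : JI → ℂ) v = conj (φ v) * ξ v := by
  rw [DIA_star_apply, DIA_dbv hW, inner_smul_left, DIA_inner]

theorem DIA_chi (γ : ℕ → ZMod 3) (s : JI) : ‖chi γ s‖ = 1 := by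
  unfold chi
  cases h : wt s with
  | none => simp
  | some j => simp [norm_om]

theorem DIA_chi_mul (γ : ℕ → ZMod 3) (s : JI) : chi γ s * conj (chi γ s) = 1 := by
  rw [Complex.mul_conj, Complex.normSq_eq_norm_sq, DIA_chi]
  simp

theorem DIA_UU (γ : ℕ → ZMod 3) (ξ : HH) (v : JI) : (UU γ ξ : JI → ℂ) v = chi γ v * ξ v :=
  Classical.epsilon_spec (p := fun W : BH => ∀ (ξ : HH) (v : JI),
    (W ξ : JI → ℂ) v = chi γ v * ξ v) (DIA_diag (chi γ) 1 fun v => (DIA_chi γ v).le) ξ v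

theorem DIA_qq (v : Fin (hh + 1)) (ξ : HH) (u : JI) :
    (qq v ξ : JI → ℂ) u = if typ u = v then ξ u else 0 := by
  refine Classical.epsilon_spec (p := fun W : BH => ∀ (ξ : HH) (u : JI),
    (W ξ : JI → ℂ) u = if typ u = v then ξ u else 0) ?_ ξ u
  obtain ⟨W, hW⟩ := DIA_diag (fun u => if typ u = v then 1 else 0) 1 fun u => by
    split_ifs <;> simp
  refine ⟨W, fun ξ u => ?_⟩
  rw [hW]
  split_ifs <;> simp

theorem DIA_qq' (v : Fin (hh + 1)) (ξ : HH) (u : JI) :
    (qq v ξ : JI → ℂ) u = (if typ u = v then 1 else 0) * ξ u := by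
  rw [DIA_qq]
  split_ifs <;> simp

theorem DIA_PP (m : ℕ) (ξ : HH) (u : JI) :
    (PP m ξ : JI → ℂ) u = if u ∈ JJ m then ξ u else 0 := by
  refine Classical.epsilon_spec (p := fun W : BH => ∀ (ξ : HH) (u : JI),
    (W ξ : JI → ℂ) u = if u ∈ JJ m then ξ u else 0) ?_ ξ u
  obtain ⟨W, hW⟩ := DIA_diag (fun u => if u ∈ JJ m then 1 else 0) 1 fun u => by
    split_ifs <;> simp
  refine ⟨W, fun ξ u => ?_⟩
  rw [hW]
  split_ifs <;> simp

theorem DIA_PP' (m : ℕ) (ξ : HH) (u : JI) :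
    (PP m ξ : JI → ℂ) u = (if u ∈ JJ m then 1 else 0) * ξ u := by
  rw [DIA_PP]
  split_ifs <;> simp

/-- `PP m ξ` is a finite sum -/
theorem DIA_PP_sum (m : ℕ) (ξ : HH) : PP m ξ = ∑ r ∈ JJ m, (ξ : JI → ℂ) r • bv r := by
  apply lp.ext
  funext u
  rw [DIA_PP, lp.coeFn_sum, Finset.sum_apply]
  have : ∀ r ∈ JJ m, ((((ξ : JI → ℂ) r • bv r : HH)) : JI → ℂ) u =
      if u = r then (ξ : JI → ℂ) r else 0 := by
    intro r _
    rw [lp.coeFn_smul, Pi.smul_apply, smul_eq_mul, DIA_bv]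
    split_ifs <;> simp
  rw [Finset.sum_congr rfl this, Finset.sum_ite_eq]

theorem DIA_mcsum (f : BH) (m : ℕ) (ξ : HH) (s : JI) :
    (f (PP m ξ) : JI → ℂ) s = ∑ r ∈ JJ m, mc f s r * (ξ : JI → ℂ) r := by
  rw [DIA_PP_sum, map_sum, lp.coeFn_sum, Finset.sum_apply]
  refine Finset.sum_congr rfl fun r _ => ?_
  rw [map_smul, lp.coeFn_smul, Pi.smul_apply, smul_eq_mul, mul_comm]
  rfl

/-- Module DIA. -/
theorem sDia : SDia := by
  refine ⟨DIA_UU, DIA_qq, DIA_PP, ?_, ?_, ?_, ?_, ?_, ?_, DIA_star, ?_, ?_, ?_, ?_⟩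
  · intro γ
    constructor
    · ext1 ξ
      apply lp.ext
      funext v
      rw [ContinuousLinearMap.mul_apply, DIA_UU, DIA_dstar (DIA_UU γ), ← mul_assoc, DIA_chi_mul,
        one_mul]
      rfl
    · ext1 ξ
      apply lp.ext
      funext v
      rw [ContinuousLinearMap.mul_apply, DIA_dstar (DIA_UU γ), DIA_UU, ← mul_assoc,
        mul_comm (conj (chi γ v)), DIA_chi_mul, one_mul]
      rfl
  · intro v
    constructor
    · ext1 ξ
      apply lp.ext
      funext u
      rw [DIA_dstar (DIA_qq' v), DIA_qq' v]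
      split_ifs <;> simp
    · ext1 ξ
      apply lp.ext
      funext u
      rw [ContinuousLinearMap.mul_apply, DIA_qq, DIA_qq]
      split_ifs <;> rfl
  · intro m
    constructor
    · ext1 ξ
      apply lp.ext
      funext u
      rw [DIA_dstar (DIA_PP' m), DIA_PP' m]
      split_ifs <;> simp
    · ext1 ξ
      apply lp.ext
      funext u
      rw [ContinuousLinearMap.mul_apply, DIA_PP, DIA_PP]
      split_ifs <;> rfl
  · intro f γ s t
    have h1 : star (UU γ) (bv t) = conj (chi γ t) • bv t :=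
      DIA_dbv (DIA_dstar (DIA_UU γ)) t
    unfold mc
    rw [ContinuousLinearMap.mul_apply, ContinuousLinearMap.mul_apply, DIA_UU, h1, map_smul,
      lp.coeFn_smul, Pi.smul_apply, smul_eq_mul]
    ring
  · intro f v s t
    constructor
    · unfold mc
      rw [ContinuousLinearMap.mul_apply, DIA_qq]
    · unfold mc
      rw [ContinuousLinearMap.mul_apply, DIA_dbv (DIA_qq' v) t]
      split_ifs
      · rw [one_smul]
      · rw [zero_smul, map_zero]
        rfl
  · intro f m s t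
    constructor
    · unfold mc
      rw [ContinuousLinearMap.mul_apply, DIA_PP]
    · unfold mc
      rw [ContinuousLinearMap.mul_apply, DIA_dbv (DIA_PP' m) t]
      split_ifs
      · rw [one_smul]
      · rw [zero_smul, map_zero]
        rfl
  · intro f s t
    unfold mc
    calc ‖(f (bv t) : JI → ℂ) s‖ ≤ ‖f (bv t)‖ := lp.norm_apply_le_norm (by norm_num) _ _
      _ ≤ ‖f‖ * ‖bv t‖ := f.le_opNorm _
      _ = ‖f‖ := by rw [DIA_norm_bv, mul_one]
  · intro f ξ
    exact f.le_opNorm ξ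
  · intro f g m s t hs ht hc
    have h1 : (f (g (bv t)) : JI → ℂ) s = (PP m (f (g (bv t))) : JI → ℂ) s := by
      rw [DIA_PP, if_pos hs]
    have h2 : PP m (f (g (bv t))) = f (PP m (g (bv t))) := by
      have := congrArg (fun W : BH => W (g (bv t))) hc
      exact this
    show (f (g (bv t)) : JI → ℂ) s = _
    rw [h1, h2, DIA_mcsum]
    rfl
  · intro f g m s t hs ht hc
    have h1 : PP m (bv t) = bv t := by
      rw [DIA_dbv (DIA_PP' m) t, if_pos ht, one_smul]
    have h2 : g (bv t) = PP m (g (bv t)) := by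
      have := congrArg (fun W : BH => W (bv t)) hc
      have h3 : PP m (g (bv t)) = g (PP m (bv t)) := this
      rw [h3, h1]
    show (f (g (bv t)) : JI → ℂ) s = _
    rw [h2, DIA_mcsum]
    rfl

end Pool.OPP
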