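import Pool.Agent.H7.OPP.Stmts

/-!
# OPP, module GC: the functions `GG k s t h`
-/

set_option autoImplicit false

namespace Pool.OPP

open scoped Topology ComplexConjugate

theorem GC_dist (h1 : SEl) (h2 : SEla) (k : ℕ) (s t : JI) (hs : s ∈ JJ k) (ht : t ∈ JJ k)
    (h : C(SS, ℂ)) (x y : SS) :
    ‖el k s t (fun T => h (pt x T)) - el k s t (fun T => h (pt y T))‖ ≤ ‖h x - h y‖ := by
  have hC : ∀ y, ‖h y‖ ≤ ‖h‖ := fun y => h.norm_coe_le_norm y
  have hb : ∀ T, ‖h (pt x T) - h (pt y T)‖ ≤ ‖h x - h y‖ := by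
    intro T
    unfold pt
    by_cases hT : T.Nonempty
    · rw [dif_pos hT, dif_pos hT, sub_self, norm_zero]
      exact norm_nonneg _
    · rw [dif_neg hT, dif_neg hT]
  have h1' := (h2.2.1 k s t hs ht (fun T => h (pt y T)) ‖h‖ (fun T => hC _)).2.2.2.1
    (fun T => h (pt x T) - h (pt y T)) ‖h x - h y‖ hb
  have h2' : (fun T => h (pt y T) + (h (pt x T) - h (pt y T))) = fun T => h (pt x T) := by
    funext T
    ring
  have h3 : el k s t (fun T => h (pt x T)) - el k s t (fun T => h (pt y T)) =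
      el k s t (fun T => h (pt x T) - h (pt y T)) := by
    rw [sub_eq_iff_eq_add']
    rw [h2'] at h1'
    exact h1'.symm
  rw [h3]
  exact (h1 k s t hs ht _ _ hb).2

theorem GC_cont (h1 : SEl) (h2 : SEla) (k : ℕ) (s t : JI) (hs : s ∈ JJ k) (ht : t ∈ JJ k)
    (h : C(SS, ℂ)) : Continuous (fun x => el k s t (fun T => h (pt x T))) := by
  rw [continuous_iff_continuousAt]
  intro y
  unfold ContinuousAt
  rw [tendsto_iff_norm_sub_tendsto_zero]
  have h0 : Filter.Tendsto (fun x => ‖h x - h y‖) (𝓝 y) (𝓝 0) := by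
    rw [← tendsto_iff_norm_sub_tendsto_zero]
    exact h.continuous.continuousAt
  exact squeeze_zero (fun x => norm_nonneg _) (fun x => GC_dist h1 h2 k s t hs ht h x y) h0

/-- Module GC. -/
theorem sGc (h1 : SEl) (h2 : SEla) : SGc := by
  intro k s t hs ht h
  refine ⟨⟨‖h‖, fun x T => h.norm_coe_le_norm _⟩, ?_⟩
  intro x
  unfold GG
  rw [dif_pos (GC_cont h1 h2 k s t hs ht h)]
  rfl

end Pool.OPP
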