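import Pool.Agent.H7.OPP.Stmts

/-!
# OPP, module GEN: the generators and their relations
-/

set_option autoImplicit false

namespace Pool.OPP

open scoped Topology ComplexConjugate

theorem GEN_JJ0 : JJ 0 = Finset.univ ×ˢ {∅} := by
  unfold JJ
  simp

theorem GEN_mem (i : II) : ((i, ∅) : JI) ∈ JJ 0 := by
  rw [GEN_JJ0]
  simp

theorem GEN_typ (i : II) : typ (i, ∅) = i.1 := by
  simp [typ]

theorem GEN_wt (i : II) : wt (i, ∅) = if i = istar then some 0 else none := by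
  simp [wt]

theorem GEN_chi_star (γ : ℕ → ZMod 3) : chi γ (istar, ∅) = om ^ (γ 0).val := by
  have h : wt (istar, ∅) = some 0 := by rw [GEN_wt, if_pos rfl]
  unfold chi
  rw [h]

theorem GEN_chi_ne (γ : ℕ → ZMod 3) (i : II) (hi : i ≠ istar) : chi γ (i, ∅) = 1 := by
  have h : wt (i, ∅) = none := by rw [GEN_wt, if_neg hi]
  unfold chi
  rw [h]

theorem GEN_mul (h1 : SGa) (i j k l : II) (f g : C(SS, ℂ)) :
    GG 0 (i, ∅) (j, ∅) f * GG 0 (k, ∅) (l, ∅) g =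
      if j = k then GG 0 (i, ∅) (l, ∅) (f * g) else 0 := by
  rw [(h1 0 (i, ∅) (j, ∅) (GEN_mem i) (GEN_mem j) f).2.1 (k, ∅) (l, ∅) (GEN_mem k) (GEN_mem l) g]
  by_cases h : j = k
  · rw [if_pos h, if_pos (by rw [h])]
  · rw [if_neg h, if_neg]
    intro h'
    exact h (congrArg Prod.fst h')

theorem GEN_star (h1 : SGa) (i j : II) (f : C(SS, ℂ)) :
    star (GG 0 (i, ∅) (j, ∅) f) = GG 0 (j, ∅) (i, ∅) (star f) :=
  (h1 0 (i, ∅) (j, ∅) (GEN_mem i) (GEN_mem j) f).1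

theorem GEN_sc_mul (h1 : SGa) (h f : C(SS, ℂ)) (i j : II) :
    sc h * GG 0 (i, ∅) (j, ∅) f = GG 0 (i, ∅) (j, ∅) (h * f) := by
  unfold sc
  rw [Finset.sum_mul]
  have : ∀ k ∈ (Finset.univ : Finset II), GG 0 (k, ∅) (k, ∅) h * GG 0 (i, ∅) (j, ∅) f =
      if k = i then GG 0 (i, ∅) (j, ∅) (h * f) else 0 := by
    intro k _
    rw [GEN_mul h1]
    split_ifs with hk
    · rw [hk]
    · rfl
  rw [Finset.sum_congr rfl this, Finset.sum_ite_eq', if_pos (Finset.mem_univ _)]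

theorem GEN_mul_sc (h1 : SGa) (h f : C(SS, ℂ)) (i j : II) :
    GG 0 (i, ∅) (j, ∅) f * sc h = GG 0 (i, ∅) (j, ∅) (f * h) := by
  unfold sc
  rw [Finset.mul_sum]
  have : ∀ k ∈ (Finset.univ : Finset II), GG 0 (i, ∅) (j, ∅) f * GG 0 (k, ∅) (k, ∅) h =
      if j = k then GG 0 (i, ∅) (j, ∅) (f * h) else 0 := by
    intro k _
    rw [GEN_mul h1]
    split_ifs with hk
    · rw [hk]
    · rfl
  rw [Finset.sum_congr rfl this, Finset.sum_ite_eq, if_pos (Finset.mem_univ _)]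

theorem GEN_sc_add (h1 : SGa) (h h' : C(SS, ℂ)) : sc (h + h') = sc h + sc h' := by
  unfold sc
  rw [← Finset.sum_add_distrib]
  refine Finset.sum_congr rfl fun i _ => ?_
  exact ((h1 0 (i, ∅) (i, ∅) (GEN_mem i) (GEN_mem i) h).2.2.1 h').symm

theorem GEN_sc_mul_sc (h1 : SGa) (h h' : C(SS, ℂ)) : sc (h * h') = sc h * sc h' := by
  conv_rhs => rw [show sc h' = ∑ i : II, GG 0 (i, ∅) (i, ∅) h' from rfl]
  rw [Finset.mul_sum]
  refine Finset.sum_congr rfl fun i _ => ?_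
  rw [GEN_sc_mul h1]

theorem GEN_sum_one (h1 : SGa) : ∑ i : II, GG 0 (i, ∅) (i, ∅) 1 = (1 : BB) := by
  have h := (h1 0 (istar, ∅) (istar, ∅) (GEN_mem istar) (GEN_mem istar) 1).2.2.2.2.2
  rw [GEN_JJ0, Finset.sum_product] at h
  simpa using h

theorem GEN_sc_one (h1 : SGa) : sc 1 = 1 := GEN_sum_one h1

theorem GEN_sc_star (h1 : SGa) (h : C(SS, ℂ)) : star (sc h) = sc (star h) := by
  unfold sc
  rw [star_sum]
  exact Finset.sum_congr rfl fun i _ => GEN_star h1 i i h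

theorem GEN_sc_smul (h1 : SGa) (h : C(SS, ℂ)) (c : ℂ) : sc (c • h) = c • sc h := by
  unfold sc
  rw [Finset.smul_sum]
  refine Finset.sum_congr rfl fun i _ => ?_
  exact ((h1 0 (i, ∅) (i, ∅) (GEN_mem i) (GEN_mem i) h).2.2.2.1 c).symm

theorem GEN_sc_norm (h1 : SGa) (h : C(SS, ℂ)) : ‖sc h‖ ≤ cI * ‖h‖ := by
  unfold sc
  refine (norm_sum_le _ _).trans ?_
  calc ∑ i : II, ‖GG 0 (i, ∅) (i, ∅) h‖ ≤ ∑ _i : II, ‖h‖ :=
        Finset.sum_le_sum fun i _ =>
          (h1 0 (i, ∅) (i, ∅) (GEN_mem i) (GEN_mem i) h).2.2.2.2.1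
    _ = cI * ‖h‖ := by rw [Finset.sum_const, nsmul_eq_mul]; rfl

theorem GEN_gH_star (h1 : SGa) (k l : Fin 3) : star (gH k l) = gH l k := by
  unfold gH
  rw [GEN_sc_star h1, star_mul, star_star]

theorem GEN_sum_gH (h1 : SGa) : ∑ k, gH k k = 1 := by
  have h2 : ∀ s : Finset (Fin 3), ∑ k ∈ s, gH k k = sc (∑ k ∈ s, yf k * star (yf k)) := by
    intro s
    induction s using Finset.induction_on with
    | empty =>
      rw [Finset.sum_empty, Finset.sum_empty]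
      have h0 : sc ((0 : ℂ) • (0 : C(SS, ℂ))) = (0 : ℂ) • sc 0 := GEN_sc_smul h1 0 0
      rw [zero_smul ℂ (sc 0)] at h0
      have h00 : (0 : ℂ) • (0 : C(SS, ℂ)) = 0 := by
        ext x
        simp
      rw [h00] at h0
      exact h0.symm
    | insert a s ha ih =>
      rw [Finset.sum_insert ha, Finset.sum_insert ha, ih, GEN_sc_add h1]
      rfl
  rw [h2]
  have h3 : ∑ k, yf k * star (yf k) = 1 := by
    ext x
    have h4 : ‖y0 x‖ = 1 := norm_eq_of_mem_sphere (x 0)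
    have h5 : ∑ k, ‖y0 x k‖ ^ 2 = 1 := by
      rw [← EuclideanSpace.norm_sq_eq, h4, one_pow]
    rw [ContinuousMap.coe_sum, Finset.sum_apply]
    have h6 : ∀ k ∈ (Finset.univ : Finset (Fin 3)), (yf k * star (yf k)) x =
        ((‖y0 x k‖ ^ 2 : ℝ) : ℂ) := by
      intro k _
      show y0 x k * conj (y0 x k) = _
      rw [Complex.mul_conj, Complex.normSq_eq_norm_sq]
    rw [Finset.sum_congr rfl h6, ← Complex.ofReal_sum, h5]
    simp
  rw [h3, GEN_sc_one h1]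

theorem GEN_bf_star (w : Fin hh) : star (bf w) = bf w := by
  ext x
  show conj (((bet w (y0 x) : ℝ) : ℂ)) = _
  rw [Complex.conj_ofReal]
  rfl

theorem GEN_linked_symm {i j : II} (h : linked i j) : linked j i :=
  ⟨h.1.symm, h.2.symm⟩

theorem GEN_linked_iff (i j : II) : linked i j ↔ linked j i :=
  ⟨GEN_linked_symm, GEN_linked_symm⟩

theorem GEN_gE_star (h1 : SGa) (i j : II) : star (gE i j) = gE j i := by
  unfold gE
  rw [GEN_star h1, star_one]

/-! ### admissibility -/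

theorem GEN_adm_E (h3 : SAdm) (i j : II) (h : linked i j) : Adm (i, ∅) (j, ∅) 1 := by
  have h4 := h3.2.2.2.2.2.2.1 (i, ∅) (j, ∅) (by rw [GEN_typ, GEN_typ]; exact h.1) (by
    rw [GEN_wt, GEN_wt]
    by_cases hi : i = istar
    · rw [if_pos hi, if_pos (h.2.1 hi)]
    · rw [if_neg hi, if_neg fun hj => hi (h.2.2 hj)]) 1
  exact h4

theorem GEN_y0 (x y : SS) (h : ∀ j < 1, x j = y j) : y0 x = y0 y := by
  unfold y0
  rw [h 0 (by norm_num)]

theorem GEN_yf_act (h5 : SAct) (k : Fin 3) (γ : ℕ → ZMod 3) (x : SS) :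
    yf k (act γ x) = om ^ (γ 0).val * yf k x := by
  show y0 (act γ x) k = om ^ (γ 0).val * y0 x k
  rw [h5.2.2.2.2.2.2.2.1 γ x]
  rfl

theorem GEN_adm_Y (h5 : SAct) (k : Fin 3) : Adm (istar, ∅) (bas 0, ∅) (yf k) := by
  refine ⟨?_, ?_, 1, ?_⟩
  · intro γ x
    rw [GEN_yf_act h5, GEN_chi_star, GEN_chi_ne γ _ (bas_ne_istar 0)]
    simp
  · intro w x hx hn
    exfalso
    apply hn
    rw [GEN_typ, GEN_typ]
    rfl
  · intro x y h
    show y0 x k = y0 y k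
    rw [GEN_y0 x y h]

theorem GEN_bet_act (h5 : SAct) (w : Fin hh) (γ : ℕ → ZMod 3) (x : SS) :
    bet w (y0 (act γ x)) = bet w (y0 x) := by
  rw [h5.2.2.2.2.2.2.2.1 γ x]
  unfold bet
  rw [inner_smul_right, norm_mul, norm_pow, norm_om, one_pow, one_mul]

theorem GEN_adm_B (h5 : SAct) (w : Fin hh) : Adm (bas w.succ, ∅) (bas 0, ∅) (bf w) := by
  refine ⟨?_, ?_, 1, ?_⟩
  · intro γ x
    rw [GEN_chi_ne γ _ (bas_ne_istar _), GEN_chi_ne γ _ (bas_ne_istar 0)]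
    show (((bet w (y0 (act γ x)) : ℝ)) : ℂ) = 1 * conj 1 * (((bet w (y0 x) : ℝ)) : ℂ)
    rw [GEN_bet_act h5]
    simp
  · intro w' x hx hn
    rw [GEN_typ, GEN_typ] at hn
    have h0 : ¬ ((bas 0).1 = w'.succ) := fun h => (Fin.succ_ne_zero w') h.symm
    have h1 : (bas w.succ).1 = w'.succ := by
      by_contra h
      exact hn (iff_of_false h h0)
    have h2 : w = w' := Fin.succ_injective _ h1
    subst h2
    show (((bet w (y0 x) : ℝ)) : ℂ) = 0
    have h3 : (4 : ℝ) / 5 ≤ ‖inner ℂ (cc w : EuclideanSpace ℂ (Fin 3)) (y0 x)‖ := hx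
    unfold bet
    rw [max_eq_left (by linarith)]
    simp
  · intro x y h
    show (((bet w (y0 x) : ℝ)) : ℂ) = (((bet w (y0 y) : ℝ)) : ℂ)
    rw [GEN_y0 x y h]

theorem GEN_adm_H (h5 : SAct) (k l : Fin 3) (i : II) :
    Adm (i, ∅) (i, ∅) (yf k * star (yf l)) := by
  refine ⟨?_, ?_, 1, ?_⟩
  · intro γ x
    have h1 : ∀ s : JI, chi γ s * conj (chi γ s) = 1 := by
      intro s
      rw [Complex.mul_conj, Complex.normSq_eq_norm_sq, h5.2.2.2.2.2.2.2.2.1 γ s]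
      simp
    have h2 : om ^ (γ 0).val * conj (om ^ (γ 0).val) = 1 := by
      rw [Complex.mul_conj, Complex.normSq_eq_norm_sq, norm_pow, norm_om]
      simp
    rw [h1, one_mul]
    show yf k (act γ x) * conj (yf l (act γ x)) = yf k x * conj (yf l x)
    rw [GEN_yf_act h5, GEN_yf_act h5, map_mul]
    calc om ^ (γ 0).val * yf k x * (conj (om ^ (γ 0).val) * conj (yf l x)) =
        om ^ (γ 0).val * conj (om ^ (γ 0).val) * (yf k x * conj (yf l x)) := by ring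
      _ = _ := by rw [h2, one_mul]
  · intro w x hx hn
    exact absurd Iff.rfl hn
  · intro x y h
    show y0 x k * conj (y0 x l) = y0 y k * conj (y0 y l)
    rw [GEN_y0 x y h]

theorem GEN_lev_zero (h4 : SLev) : Lev 0 0 := by
  have := (h4.2.2.1 0 1 (h4.2.2.2.1 0)).2 0
  rwa [zero_smul] at this

theorem GEN_lev_sum (h4 : SLev) (f : II → BB) (hf : ∀ i, Lev 0 (f i)) (s : Finset II) :
    Lev 0 (∑ i ∈ s, f i) := by
  induction s using Finset.induction_on with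
  | empty =>
    rw [Finset.sum_empty]
    exact GEN_lev_zero h4
  | insert a s ha ih =>
    rw [Finset.sum_insert ha]
    exact (h4.2.1 0 _ _ (hf a) ih).1

theorem GEN_lev (h3 : SAdm) (h4 : SLev) (h5 : SAct) (g : Gx) : Lev 0 (gen g) := by
  have hG := h4.2.2.2.2.1 0
  have hs : ∀ f, Lev 0 f → Lev 0 (star f) := fun f hf => (h4.2.2.1 0 f hf).1
  rcases g with ⟨i, j⟩ | ⟨k, b⟩ | ⟨w, b⟩ | ⟨k, l⟩
  · simp only [gen]
    split_ifs with h
    · exact hG _ (GEN_mem i) _ (GEN_mem j) 1 (GEN_adm_E h3 i j h)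
    · exact GEN_lev_zero h4
  · have h : Lev 0 (gY k) := hG _ (GEN_mem _) _ (GEN_mem _) _ (GEN_adm_Y h5 k)
    cases b
    · exact h
    · exact hs _ h
  · have h : Lev 0 (gB w) := hG _ (GEN_mem _) _ (GEN_mem _) _ (GEN_adm_B h5 w)
    cases b
    · exact h
    · exact hs _ h
  · exact GEN_lev_sum h4 _ (fun i => hG _ (GEN_mem i) _ (GEN_mem i) _ (GEN_adm_H h5 k l i)) _

/-- Module GEN. -/
theorem sGen (h1 : SGa) (h2 : SGc) (h3 : SAdm) (h4 : SLev) (h5 : SAct) : SGen := by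
  refine ⟨fun g => ⟨GEN_lev h3 h4 h5 g, ?_⟩, ?_, ?_, GEN_gE_star h1, ?_, GEN_sum_one h1, ?_, ?_,
    ?_, GEN_sum_gH h1, GEN_gH_star h1, ?_, ?_, ?_, GEN_sc_mul_sc h1, GEN_sc_add h1, ?_,
    GEN_sc_star h1, GEN_sc_one h1, GEN_sc_norm h1, ?_⟩
  · exact StarSubalgebra.le_topologicalClosure _ ((h4.2.2.2.2.2 _).2 ⟨0, GEN_lev h3 h4 h5 g⟩)
  · intro g
    rcases g with ⟨i, j⟩ | ⟨k, b⟩ | ⟨w, b⟩ | ⟨k, l⟩
    · refine ⟨Sum.inl (j, i), ?_⟩
      simp only [gen]
      by_cases h : linked i j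
      · rw [if_pos h, if_pos (GEN_linked_symm h), GEN_gE_star h1]
      · rw [if_neg h, if_neg fun h' => h (GEN_linked_symm h'), star_zero]
    · cases b
      · exact ⟨Sum.inr (Sum.inl (k, true)), rfl⟩
      · exact ⟨Sum.inr (Sum.inl (k, false)), star_star _⟩
    · cases b
      · exact ⟨Sum.inr (Sum.inr (Sum.inl (w, true))), rfl⟩
      · exact ⟨Sum.inr (Sum.inr (Sum.inl (w, false))), star_star _⟩
    · exact ⟨Sum.inr (Sum.inr (Sum.inr (l, k))), GEN_gH_star h1 k l⟩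
  · unfold cG cI
    simp only [Gx, Fintype.card_sum, Fintype.card_prod, Fintype.card_fin, Fintype.card_bool]
    ring
  · intro i j k l
    unfold gE
    rw [GEN_mul h1, one_mul]
  · intro k l
    unfold gY gH gE
    rw [GEN_star h1, GEN_mul h1, if_pos rfl, GEN_sc_mul h1, mul_one, mul_comm]
  · intro k l
    unfold gY gH gE
    rw [GEN_star h1, GEN_mul h1, if_pos rfl, GEN_sc_mul h1, mul_one]
  · intro k l i
    unfold gH gE
    rw [GEN_sc_mul h1, GEN_mul_sc h1, mul_one, one_mul]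
  · intro k
    unfold gY gE
    constructor
    · rw [GEN_mul h1, if_pos rfl, mul_one]
    · rw [GEN_mul h1, if_pos rfl, one_mul]
  · intro w
    unfold gB gE
    constructor
    · rw [GEN_mul h1, if_pos rfl, mul_one]
    · rw [GEN_mul h1, if_pos rfl, one_mul]
  · intro w
    unfold gB gE
    rw [GEN_star h1, GEN_mul h1, if_pos rfl, GEN_sc_mul h1, mul_one, GEN_bf_star]
  · intro h c
    exact GEN_sc_smul h1 h c
  · intro h i
    unfold gE
    rw [GEN_sc_mul h1, GEN_mul_sc h1, mul_one, one_mul]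

end Pool.OPP
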