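import Pool.Agent.H91.OPP.TTB

/-!
# Module LOCP: locality of the prism
-/

set_option autoImplicit false

namespace Pool.OPP

theorem locp : S_LOCP := by
  intro X f g l
  induction l with
  | nil =>
    intro φ _
    rfl
  | cons x l ih =>
    intro φ hφ
    have h1 : pri f g φ (x :: l) = φ (f x :: g x :: l.map g) -
        pri f g (fun l' => φ (f x :: l')) l := rfl
    rw [h1, ih]
    · rw [hφ, sub_zero]
      intro y hy
      rcases List.mem_cons.1 hy with rfl | hy
      · exact ⟨x, List.mem_cons_self, Or.inl rfl⟩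
      · rcases List.mem_cons.1 hy with rfl | hy
        · exact ⟨x, List.mem_cons_self, Or.inr rfl⟩
        · obtain ⟨z, hz, rfl⟩ := List.mem_map.1 hy
          exact ⟨z, List.mem_cons_of_mem _ hz, Or.inr rfl⟩
    · intro l' hl'
      apply hφ
      intro y hy
      rcases List.mem_cons.1 hy with rfl | hy
      · exact ⟨x, List.mem_cons_self, Or.inl rfl⟩
      · obtain ⟨z, hz, hz'⟩ := hl' y hy
        exact ⟨z, List.mem_cons_of_mem _ hz, hz'⟩

end Pool.OPP
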