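import Pool.Agent.H91.OPP.TTB

/-!
# Module OPS: the operators on normalised cochains
-/

set_option autoImplicit false

namespace Pool.OPP

namespace OPS

variable {X : Type}

theorem del_sub (φ ψ : List X → ℤ) (l : List X) :
    del (fun k => φ k - ψ k) l = del φ l - del ψ l := by
  induction l generalizing φ ψ with
  | nil => simp [del]
  | cons x l ih =>
    simp only [del]
    rw [ih (fun l' => φ (x :: l')) (fun l' => ψ (x :: l'))]
    ring

theorem pri_sub (f g : X → X) (φ ψ : List X → ℤ) (l : List X) :
    pri f g (fun k => φ k - ψ k) l = pri f g φ l - pri f g ψ l := by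
  induction l generalizing φ ψ with
  | nil => simp [pri]
  | cons x l ih =>
    simp only [pri]
    rw [ih (fun l' => φ (f x :: l')) (fun l' => ψ (f x :: l'))]
    ring

theorem del_sum {ι : Type} (s : Finset ι) (φ : ι → List X → ℤ) (l : List X) :
    del (fun k => ∑ i ∈ s, φ i k) l = ∑ i ∈ s, del (φ i) l := by
  induction l generalizing φ with
  | nil => simp [del]
  | cons x l ih =>
    simp only [del]
    rw [ih (fun i l' => φ i (x :: l')), Finset.sum_sub_distrib]

theorem del_pb (f : X → X) (φ : List X → ℤ) (l : List X) :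
    del (pb f φ) l = del φ (l.map f) := by
  induction l generalizing φ with
  | nil => rfl
  | cons x l ih =>
    simp only [del, List.map_cons]
    have h1 := ih (fun l' => φ (f x :: l'))
    have h2 : (fun l' => pb f φ (x :: l')) = pb f (fun l' => φ (f x :: l')) := rfl
    rw [h2, h1]
    rfl

theorem del_del (φ : List X → ℤ) (l : List X) : del (del φ) l = 0 := by
  induction l generalizing φ with
  | nil => rfl
  | cons x l ih =>
    have h1 : del (del φ) (x :: l) = del φ l - del (fun l' => del φ (x :: l')) l := rfl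
    have h2 : (fun l' => del φ (x :: l')) =
        fun l' => φ l' - del (fun k => φ (x :: k)) l' := rfl
    rw [h1, h2, del_sub, ih]
    ring

theorem pri_del (f g : X → X) (φ : List X → ℤ) (l : List X) :
    pri f g (del φ) l = φ (l.map g) - φ (l.map f) - del (pri f g φ) l := by
  induction l generalizing φ with
  | nil => simp [pri, del]
  | cons x l ih =>
    have h1 : pri f g (del φ) (x :: l) = φ (g x :: l.map g) - (φ (f x :: l.map g) -
        del (fun k => φ (f x :: g x :: k)) (l.map g)) -
        pri f g (fun l' => φ l' - del (fun k => φ (f x :: k)) l') l := rfl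
    have h2 : del (pri f g φ) (x :: l) = pri f g φ l -
        del (fun l' => pb g (fun k => φ (f x :: g x :: k)) l' -
          pri f g (fun k => φ (f x :: k)) l') l := rfl
    rw [h1, h2, pri_sub, ih, del_sub, del_pb]
    simp only [List.map_cons]
    ring

theorem pri_pb (f g t : X → X) (hf : ∀ x, f (t x) = t (f x)) (hg : ∀ x, g (t x) = t (g x))
    (φ : List X → ℤ) (l : List X) : pri f g (pb t φ) l = pri f g φ (l.map t) := by
  induction l generalizing φ with
  | nil => rfl
  | cons x l ih =>
    have h1 : pri f g (pb t φ) (x :: l) = φ (t (f x) :: t (g x) :: (l.map g).map t) -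
        pri f g (pb t (fun k => φ (t (f x) :: k))) l := rfl
    have h2 : pri f g φ ((x :: l).map t) = φ (f (t x) :: g (t x) :: (l.map t).map g) -
        pri f g (fun k => φ (f (t x) :: k)) (l.map t) := rfl
    rw [h1, h2, ih, hf, hg]
    congr 3
    rw [List.map_map, List.map_map]
    have h3 : (t ∘ g) = (g ∘ t) := by
      funext y
      exact (hg y).symm
    rw [h3]

theorem pri_pb_zero (f g c : X → X) (hf : ∀ x, c (f x) = c x) (hg : ∀ x, c (g x) = c x)
    (φ : List X → ℤ) (hφ : Nr φ) (l : List X) : pri f g (pb c φ) l = 0 := by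
  induction l generalizing φ with
  | nil => rfl
  | cons x l ih =>
    have h1 : pri f g (pb c φ) (x :: l) = φ (c (f x) :: c (g x) :: (l.map g).map c) -
        pri f g (pb c (fun k => φ (c (f x) :: k))) l := rfl
    have h2 := hφ [] (c x) ((l.map g).map c)
    rw [h1, ih _ (hφ.cons _), hf, hg]
    rw [List.nil_append] at h2
    rw [h2]
    rfl

end OPS

theorem ops : S_OPS := by
  intro X
  refine ⟨fun f => ?_, fun f g => ?_, ?_, fun f L => ?_, fun f L t ht => ?_, fun f L c hc => ?_⟩
  · ext φ l
    exact OPS.del_pb f φ.1 l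
  · ext φ l
    show φ.1 ((l.map f).map g) = φ.1 (l.map (g ∘ f))
    rw [List.map_map]
  · ext φ l
    exact OPS.del_del φ.1 l
  · ext φ l
    show fil f L (del φ.1) l = φ.1 (l.map (f L)) - φ.1 (l.map (f 0)) - del (fil f L φ.1) l
    have h1 : del (fil f L φ.1) l =
        ∑ q ∈ Finset.range L, del (pri (f q) (f (q + 1)) φ.1) l := OPS.del_sum _ _ _
    have h2 : fil f L (del φ.1) l =
        ∑ q ∈ Finset.range L, (φ.1 (l.map (f (q + 1))) - φ.1 (l.map (f q)) -
          del (pri (f q) (f (q + 1)) φ.1) l) := by
      unfold fil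
      exact Finset.sum_congr rfl fun q _ => OPS.pri_del _ _ _ _
    rw [h1, h2, Finset.sum_sub_distrib,
      Finset.sum_range_sub (fun q => φ.1 (l.map (f q)))]
  · ext φ l
    show fil f L (pb t φ.1) l = fil f L φ.1 (l.map t)
    unfold fil
    exact Finset.sum_congr rfl fun q _ => OPS.pri_pb _ _ _ (ht q) (ht (q + 1)) _ _
  · ext φ l
    show fil f L (pb c φ.1) l = 0
    unfold fil
    exact Finset.sum_eq_zero fun q _ =>
      OPS.pri_pb_zero _ _ _ (hc q) (hc (q + 1)) _ φ.2.2 _

end Pool.OPP
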